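import Pool.Agent.helper70.BND.SpecH

/-!
# Project bnd, block H, row LPA: the lattice path near the segment
-/

set_option autoImplicit false

open scoped Topology
open Finset

namespace Pool.Agent.BND.EX

lemma LPA_abs (K i : ℕ) (hK : 0 < K) (n q : ℤ) (h1 : (K : ℤ) * q ≤ i * n + 2 * K) (h2 : (i : ℤ) * n ≤ K * q + 2 * K) :
    |(q : ℝ) - (i : ℝ) / K * n| ≤ 2 := by
  have hK' : (0 : ℝ) < K := by exact_mod_cast hK
  have h1' : (K : ℝ) * q ≤ i * n + 2 * K := by exact_mod_cast h1
  have h2' : (i : ℝ) * n ≤ K * q + 2 * K := by exact_mod_cast h2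
  have h3 : (q : ℝ) - (i : ℝ) / K * n = (K * q - i * n) / K := by
    field_simp
  rw [h3, abs_le]
  constructor
  · rw [le_div_iff₀ hK']
    linarith
  · rw [div_le_iff₀ hK']
    linarith

theorem LPA : LPA_stmt := by
  intro k N T hN h0 hstep
  obtain ⟨K, hK0, hK⟩ : ∃ K : ℕ, 0 < K ∧ ∀ j, |N j| ≤ (K : ℤ) := by
    refine ⟨1 + ∑ j ∈ range k, (N j).natAbs, by omega, fun j => ?_⟩
    rcases Nat.lt_or_ge j k with h | h
    · have h1 : (N j).natAbs ≤ ∑ j ∈ range k, (N j).natAbs :=
        Finset.single_le_sum (f := fun j => (N j).natAbs) (fun _ _ => Nat.zero_le _) (Finset.mem_range.2 h)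
      rw [Int.abs_eq_natAbs]
      exact_mod_cast (by omega : (N j).natAbs ≤ 1 + ∑ j ∈ range k, (N j).natAbs)
    · rw [hN j h, abs_zero]
      exact Int.natCast_nonneg _
  have hKz : (0 : ℤ) < K := by exact_mod_cast hK0
  obtain ⟨A, hA1, hA2, hA0, hAz, hAK⟩ : ∃ A : ℕ → ℕ → ℤ, (∀ i j : ℕ, (K : ℤ) * A i j ≤ (i : ℤ) * N j) ∧
      (∀ i j : ℕ, (i : ℤ) * N j < K * A i j + K) ∧ (∀ i j : ℕ, k ≤ j → A i j = 0) ∧ (∀ j, A 0 j = 0) ∧ ∀ j, A K j = N j := by
    refine ⟨fun i j => (i * N j) / K, fun i j => Int.mul_ediv_self_le hKz.ne', fun i j => Int.lt_mul_ediv_self_add hKz,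
      fun i j h => ?_, fun j => ?_, fun j => ?_⟩
    · show ((i : ℤ) * N j) / K = 0
      rw [hN j h, mul_zero, Int.zero_ediv]
    · show (((0 : ℕ) : ℤ) * N j) / K = 0
      rw [Nat.cast_zero, zero_mul, Int.zero_ediv]
    · show ((K : ℤ) * N j) / K = N j
      rw [Int.mul_ediv_cancel_left _ hKz.ne']
  have hNK : ∀ j, -(K : ℤ) ≤ N j ∧ N j ≤ K := fun j => abs_le.1 (hK j)
  -- real bounds
  have hb : ∀ i j₀, ∀ j, |(((if j < j₀ then A (i + 1) j else A i j : ℤ)) : ℝ) - (i : ℝ) / K * N j| ≤ 2 := by
    intro i j₀ j
    split_ifs with h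
    · have h1 := hA1 (i + 1) j
      have h2 := hA2 (i + 1) j
      have h3 := hNK j
      push_cast at h1 h2
      exact LPA_abs K i hK0 (N j) (A (i + 1) j) (by linarith) (by linarith)
    · have h1 := hA1 i j
      have h2 := hA2 i j
      exact LPA_abs K i hK0 (N j) (A i j) (by linarith) (by linarith)
  have hmain : ∀ i, i ≤ K → T (A i) := by
    intro i
    induction i with
    | zero =>
      intro _
      have h1 : A 0 = fun _ => 0 := funext hAz
      rw [h1]
      exact h0
    | succ i ih =>
      intro hi
      have hr : (i : ℝ) / K ∈ U := by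
        have hK' : (0 : ℝ) < K := by exact_mod_cast hK0
        refine ⟨by positivity, ?_⟩
        rw [div_le_one hK']
        exact_mod_cast (by omega : i ≤ K)
      have hin : ∀ j₀, j₀ ≤ k → T (fun j => if j < j₀ then A (i + 1) j else A i j) := by
        intro j₀
        induction j₀ with
        | zero =>
          intro _
          have h1 : (fun j => if j < 0 then A (i + 1) j else A i j) = A i := by
            funext j
            rw [if_neg (Nat.not_lt_zero j)]
          rw [h1]
          exact ih (by omega)
        | succ j₀ ih2 =>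
          intro hj₀
          have h1 := ih2 (by omega)
          have hfun : (fun j => if j < j₀ + 1 then A (i + 1) j else A i j) =
              fun j => (fun j => if j < j₀ then A (i + 1) j else A i j) j +
                if j = j₀ then A (i + 1) j₀ - A i j₀ else 0 := by
            funext j
            rcases Nat.lt_trichotomy j j₀ with h | h | h
            · beta_reduce
              rw [if_pos (by omega : j < j₀ + 1), if_pos h, if_neg (by omega : ¬ j = j₀), add_zero]
            · subst h
              beta_reduce
              rw [if_pos (by omega : j < j + 1), if_neg (lt_irrefl j), if_pos rfl]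
              ring
            · beta_reduce
              rw [if_neg (by omega : ¬ j < j₀ + 1), if_neg (by omega : ¬ j < j₀), if_neg (by omega : ¬ j = j₀), add_zero]
          have hlow : -1 ≤ A (i + 1) j₀ - A i j₀ := by
            have h2 := hA2 (i + 1) j₀
            have h3 := hA1 i j₀
            have h4 := hNK j₀
            push_cast at h2
            have h5 : (K : ℤ) * (A i j₀ - 2) < K * A (i + 1) j₀ := by linarith
            have h6 := lt_of_mul_lt_mul_left h5 hKz.le
            omega
          have hup : A (i + 1) j₀ - A i j₀ ≤ 1 := by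
            have h2 := hA1 (i + 1) j₀
            have h3 := hA2 i j₀
            have h4 := hNK j₀
            push_cast at h2
            have h5 : (K : ℤ) * A (i + 1) j₀ < K * (A i j₀ + 2) := by linarith
            have h6 := lt_of_mul_lt_mul_left h5 hKz.le
            omega
          by_cases hε : A (i + 1) j₀ - A i j₀ = 0
          · rw [hfun, hε]
            simp only [ite_self, add_zero]
            exact h1
          · rw [hfun]
            refine hstep _ j₀ _ (by omega) (by omega) ?_ h1 ⟨_, hr, fun j _ => hb i j₀ j⟩ ⟨_, hr, fun j _ => ?_⟩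
            · intro j hj
              simp only [hA0 _ j hj, ite_self]
            · have h2 := hb i (j₀ + 1) j
              have h3 := congrFun hfun j
              simp only at h3
              rw [h3] at h2
              exact h2
      have h1 := hin k le_rfl
      have h2 : (fun j => if j < k then A (i + 1) j else A i j) = A (i + 1) := by
        funext j
        split_ifs with h
        · rfl
        · rw [hA0 _ j (by omega), hA0 _ j (by omega)]
      rw [h2] at h1
      exact h1
  have hf := hmain K le_rfl
  have h1 : A K = N := funext hAK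
  rw [h1] at hf
  exact hf

end Pool.Agent.BND.EX
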